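import Mathlib
import Pool.Agent.X272.LMBase

/-!
# The Lech-Mumford constant of a power series ring is computed by deep ideals

For an ideal `I` of `R[[T]]` let `J` be the extension of `I` along `T ↦ T ^ a`. Then
`ℓ(R[[T]] / J) = a ℓ(R[[T]] / I)` and `e(J) = a e(I)`. Intersecting `J` with a fixed power of the
maximal ideal changes the length by at most a constant and does not decrease the multiplicity, so
letting `a` go to infinity proves the claim.
-/

set_option autoImplicit false

namespace Pool.Agent.Results.MP_57f84f_al.DeepIdeals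

open IsLocalRing Filter Topology Pool.Agent.X272.LMBase
open scoped ENNReal Nat

/-- The supremum of `e(I) / (e! ℓ(S / I))` over all ideals `I` whose radical is the maximal ideal
`𝔫` of `S` and which are contained in `𝔫 ^ N`. For `S = R[[T]]` this is the number `L_N(R)`. -/
noncomputable def LMdeep (S : Type*) [CommRing S] [IsLocalRing S] (N : ℕ) : ℝ≥0∞ :=
  ⨆ (I : Ideal S) (_ : I.radical = maximalIdeal S ∧ I ≤ maximalIdeal S ^ N),
    mult I / (((dimN S)! : ℝ≥0∞) * len I)

section Cover

variable {R : Type*} [CommRing R]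

/-- A copy of `R[[T]]`, regarded as an algebra over `R[[T]]` by `T ↦ T ^ a`. -/
def Cov (R : Type*) [CommRing R] (_ : ℕ) : Type _ := PowerSeries R

noncomputable instance (a : ℕ) : CommRing (Cov R a) := inferInstanceAs (CommRing (PowerSeries R))

instance (a : ℕ) [IsLocalRing R] : IsLocalRing (Cov R a) :=
  inferInstanceAs (IsLocalRing (PowerSeries R))

instance (a : ℕ) [IsNoetherianRing R] : IsNoetherianRing (Cov R a) :=
  inferInstanceAs (IsNoetherianRing (PowerSeries R))

variable (R) in
/-- the identity map to the copy -/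
noncomputable def ι (a : ℕ) : PowerSeries R ≃+* Cov R a := RingEquiv.refl (PowerSeries R)

/-- coefficients of elements of the copy -/
noncomputable def cf {a : ℕ} (m : ℕ) : Cov R a →+ R :=
  ((PowerSeries.coeff m : PowerSeries R →ₗ[R] R).toAddMonoidHom).comp
    ((ι R a).symm : Cov R a →+* PowerSeries R).toAddMonoidHom

theorem cf_ι {a : ℕ} (m : ℕ) (f : PowerSeries R) : cf m (ι R a f) = PowerSeries.coeff m f := rfl

theorem cov_ext {a : ℕ} {b c : Cov R a} (h : ∀ m, cf m b = cf m c) : b = c := by
  apply (ι R a).symm.injective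
  ext m
  exact h m

variable {a : ℕ} [NeZero a]

variable (R a) in
/-- the substitution `T ↦ T ^ a` -/
noncomputable def σ : PowerSeries R →+* PowerSeries R :=
  (PowerSeries.expand a (NeZero.ne a) : PowerSeries R →ₐ[R] PowerSeries R).toRingHom

theorem σ_apply (f : PowerSeries R) : σ R a f = PowerSeries.expand a (NeZero.ne a) f := rfl

noncomputable instance : Algebra (PowerSeries R) (Cov R a) :=
  ((ι R a : PowerSeries R →+* Cov R a).comp (σ R a)).toAlgebra

theorem algMap_apply (f : PowerSeries R) :
    algebraMap (PowerSeries R) (Cov R a) f = ι R a (σ R a f) := rfl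

/-- `(g_i) ↦ ∑ T ^ i g_i (T ^ a)` -/
noncomputable def Ψ : (Fin a → PowerSeries R) →ₗ[PowerSeries R] Cov R a :=
  Fintype.linearCombination (PowerSeries R) (fun i : Fin a => ι R a (PowerSeries.X ^ (i : ℕ)))

theorem Ψ_apply (g : Fin a → PowerSeries R) :
    Ψ g = ∑ i : Fin a, ι R a (σ R a (g i) * PowerSeries.X ^ (i : ℕ)) := by
  rw [Ψ, Fintype.linearCombination_apply]
  refine Finset.sum_congr rfl fun i _ => ?_
  rw [Algebra.smul_def, algMap_apply, ← map_mul]

theorem coeff_Ψ (g : Fin a → PowerSeries R) (n : ℕ) (i : Fin a) :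
    cf (a * n + i) (Ψ g) = PowerSeries.coeff n (g i) := by
  rw [Ψ_apply, map_sum, Finset.sum_eq_single i]
  · rw [cf_ι, PowerSeries.coeff_mul_X_pow, σ_apply, PowerSeries.coeff_expand_mul]
  · intro j _ hj
    rw [cf_ι, PowerSeries.coeff_mul_X_pow']
    split_ifs with h
    · rw [σ_apply, PowerSeries.coeff_expand_of_not_dvd]
      rintro ⟨q, hq⟩
      apply hj
      have h1 : a * n + i = a * q + j := by omega
      have hi := i.2
      have hj' := j.2
      have h2 : (a * n + i) % a = (a * q + j) % a := by rw [h1]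
      rw [Nat.mul_add_mod, Nat.mul_add_mod, Nat.mod_eq_of_lt hi, Nat.mod_eq_of_lt hj'] at h2
      exact Fin.ext h2.symm
    · rfl
  · intro h
    exact absurd (Finset.mem_univ i) h

theorem Ψ_injective : Function.Injective (Ψ : (Fin a → PowerSeries R) → Cov R a) := by
  intro g h hgh
  funext i
  ext n
  rw [← coeff_Ψ g n i, ← coeff_Ψ h n i, hgh]

theorem Ψ_surjective : Function.Surjective (Ψ : (Fin a → PowerSeries R) → Cov R a) := by
  intro b
  refine ⟨fun i => PowerSeries.mk fun n => cf (a * n + i) b, ?_⟩
  apply cov_ext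
  intro m
  have h1 : m = a * (m / a) + (⟨m % a, Nat.mod_lt _ (NeZero.pos a)⟩ : Fin a) :=
    (Nat.div_add_mod m a).symm
  rw [h1, coeff_Ψ, PowerSeries.coeff_mk]

theorem Ψ_mem (I : Ideal (PowerSeries R)) (g : Fin a → PowerSeries R) :
    Ψ g ∈ I.map (algebraMap (PowerSeries R) (Cov R a)) ↔ ∀ i, g i ∈ I := by
  constructor
  · intro h
    let e : (Fin a → PowerSeries R) ≃ₗ[PowerSeries R] Cov R a :=
      LinearEquiv.ofBijective Ψ ⟨Ψ_injective, Ψ_surjective⟩
    have h1 : Ψ g ∈ I • (⊤ : Submodule (PowerSeries R) (Cov R a)) := by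
      rw [Ideal.smul_top_eq_map]
      exact h
    have h2 : e.symm (Ψ g) ∈ Submodule.map (e.symm : Cov R a →ₗ[PowerSeries R] _)
        (I • (⊤ : Submodule (PowerSeries R) (Cov R a))) :=
      Submodule.mem_map_of_mem h1
    have h3 : e.symm (Ψ g) = g := e.symm_apply_apply g
    rw [h3, Submodule.map_smul''] at h2
    have h4 : I • Submodule.map (e.symm : Cov R a →ₗ[PowerSeries R] _)
        (⊤ : Submodule (PowerSeries R) (Cov R a)) ≤
        Submodule.pi Set.univ (fun _ : Fin a => I) := by
      rw [Submodule.smul_le]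
      intro r hr x _ i _
      exact I.mul_mem_right _ hr
    intro i
    exact h4 h2 i (Set.mem_univ i)
  · intro h
    rw [Ψ_apply]
    refine Ideal.sum_mem _ fun i _ => ?_
    rw [map_mul, ← algMap_apply]
    exact Ideal.mul_mem_right _ _ (Ideal.mem_map_of_mem _ (h i))

/-- `R[[T]] / J` is a direct sum of `a` copies of `R[[T]] / I`. -/
theorem length_quot (I : Ideal (PowerSeries R)) :
    Module.length (PowerSeries R) (Cov R a ⧸ I.map (algebraMap (PowerSeries R) (Cov R a))) =
      a * Module.length (PowerSeries R) (PowerSeries R ⧸ I) := by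
  let θ : (Fin a → PowerSeries R) →ₗ[PowerSeries R]
      (Cov R a ⧸ I.map (algebraMap (PowerSeries R) (Cov R a))) :=
    ((Submodule.mkQ (I.map (algebraMap (PowerSeries R) (Cov R a)))).restrictScalars
      (PowerSeries R)) ∘ₗ Ψ
  have hker : LinearMap.ker θ = Submodule.pi Set.univ (fun _ : Fin a => I) := by
    ext g
    rw [LinearMap.mem_ker]
    have h1 : θ g = 0 ↔ Ψ g ∈ I.map (algebraMap (PowerSeries R) (Cov R a)) :=
      Submodule.Quotient.mk_eq_zero _
    rw [h1, Ψ_mem, Submodule.mem_pi]
    simp
  have hsurj : Function.Surjective θ :=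
    (Submodule.mkQ_surjective _).comp Ψ_surjective
  rw [← (θ.quotKerEquivOfSurjective hsurj).length_eq, hker,
    (Submodule.quotientPi (fun _ : Fin a => I)).length_eq, Module.length_pi]
  simp

theorem mem_max_iff [IsLocalRing R] (f : PowerSeries R) :
    f ∈ maximalIdeal (PowerSeries R) ↔ PowerSeries.constantCoeff f ∈ maximalIdeal R := by
  rw [mem_maximalIdeal, mem_maximalIdeal, mem_nonunits_iff, mem_nonunits_iff,
    PowerSeries.isUnit_iff_constantCoeff]

theorem res_cov [IsLocalRing R] (b : Cov R a) :
    ∃ f : PowerSeries R, b - algebraMap (PowerSeries R) (Cov R a) f ∈ maximalIdeal (Cov R a) := by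
  obtain ⟨g, rfl⟩ := (ι R a).surjective b
  refine ⟨PowerSeries.C (PowerSeries.constantCoeff g), ?_⟩
  rw [algMap_apply, ← map_sub]
  change g - σ R a (PowerSeries.C (PowerSeries.constantCoeff g)) ∈ maximalIdeal (PowerSeries R)
  rw [mem_max_iff, σ_apply, PowerSeries.expand_C, map_sub, PowerSeries.constantCoeff_C, sub_self]
  exact Ideal.zero_mem _

theorem radical_map [IsLocalRing R] {I : Ideal (PowerSeries R)}
    (hI : I.radical = maximalIdeal (PowerSeries R)) :
    (I.map (σ R a)).radical = maximalIdeal (PowerSeries R) := by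
  apply le_antisymm
  · rw [Ideal.IsPrime.radical_le_iff (maximalIdeal.isMaximal _).isPrime, Ideal.map_le_iff_le_comap]
    intro f hf
    rw [Ideal.mem_comap, mem_max_iff, σ_apply, PowerSeries.constantCoeff_expand, ← mem_max_iff,
      ← hI]
    exact Ideal.le_radical hf
  · intro f hf
    rw [PowerSeries.eq_X_mul_shift_add_const f]
    refine Ideal.add_mem _ (Ideal.mul_mem_right _ _ ?_) ?_
    · have h1 : (PowerSeries.X : PowerSeries R) ∈ I.radical := by
        rw [hI, mem_max_iff, PowerSeries.constantCoeff_X]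
        exact Ideal.zero_mem _
      obtain ⟨s, hs⟩ := h1
      refine ⟨a * s, ?_⟩
      have := Ideal.mem_map_of_mem (σ R a) hs
      rw [map_pow, σ_apply, PowerSeries.expand_X, ← pow_mul] at this
      exact this
    · have h1 : PowerSeries.C (PowerSeries.constantCoeff f) ∈ I.radical := by
        rw [hI, mem_max_iff, PowerSeries.constantCoeff_C]
        exact (mem_max_iff f).1 hf
      obtain ⟨s, hs⟩ := h1
      refine ⟨s, ?_⟩
      have := Ideal.mem_map_of_mem (σ R a) hs
      rw [map_pow, σ_apply, PowerSeries.expand_C] at this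
      exact this

variable [IsNoetherianRing R] [IsLocalRing R]

theorem length_map {I : Ideal (PowerSeries R)} (hI : I.radical = maximalIdeal (PowerSeries R)) :
    Module.length (PowerSeries R) (PowerSeries R ⧸ I.map (σ R a)) =
      a * Module.length (PowerSeries R) (PowerSeries R ⧸ I) := by
  have h1 := length_quot (a := a) I
  have h2 : (I.map (algebraMap (PowerSeries R) (Cov R a))).radical = maximalIdeal (Cov R a) :=
    radical_map (a := a) hI
  have h3 := length_eq_of_res (A := PowerSeries R) (B := Cov R a) res_cov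
    (Cov R a ⧸ I.map (algebraMap (PowerSeries R) (Cov R a))) (isFiniteLength_quot h2)
  have h4 : Module.length (Cov R a)
      (Cov R a ⧸ I.map (algebraMap (PowerSeries R) (Cov R a))) =
      a * Module.length (PowerSeries R) (PowerSeries R ⧸ I) := h3.symm.trans h1
  exact h4

theorem len_map {I : Ideal (PowerSeries R)} (hI : I.radical = maximalIdeal (PowerSeries R)) :
    len (I.map (σ R a)) = a * len I := by
  unfold len
  rw [length_map hI]
  simp

theorem mult_map {I : Ideal (PowerSeries R)} (hI : I.radical = maximalIdeal (PowerSeries R)) :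
    mult (I.map (σ R a)) = a * mult I := by
  unfold mult
  rw [← ENNReal.limsup_const_mul_of_ne_top (ENNReal.natCast_ne_top a)]
  refine limsup_congr ?_
  filter_upwards [eventually_ge_atTop 1] with k hk
  have h1 : (I ^ k).radical = maximalIdeal (PowerSeries R) := by
    rw [Ideal.radical_pow I (by omega), hI]
  rw [← Ideal.map_pow, len_map h1, ← mul_div_assoc]
  congr 1
  ring

end Cover

variable (R : Type*) [CommRing R] [IsNoetherianRing R] [IsLocalRing R]

theorem le_deep (N : ℕ) {I : Ideal (PowerSeries R)}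
    (hI : I.radical = maximalIdeal (PowerSeries R)) :
    mult I / (((dimN (PowerSeries R))! : ℝ≥0∞) * len I) ≤ LMdeep (PowerSeries R) N := by
  set D : ℝ≥0∞ := ((dimN (PowerSeries R))! : ℝ≥0∞) with hD
  have hD0 : D ≠ 0 := Nat.cast_ne_zero.2 (Nat.factorial_ne_zero _)
  have hDt : D ≠ ∞ := ENNReal.natCast_ne_top _
  have hIt : I ≠ ⊤ := by
    rintro rfl
    rw [Ideal.radical_top] at hI
    exact (maximalIdeal.isMaximal (PowerSeries R)).ne_top hI.symm
  have hl0 : len I ≠ 0 := len_ne_zero hIt
  have hlt : len I ≠ ∞ := len_ne_top hI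
  set C : ℝ≥0∞ := len (maximalIdeal (PowerSeries R) ^ N) with hC
  have hCt : C ≠ ∞ := by
    rcases Nat.eq_zero_or_pos N with rfl | hN
    · have : C = 0 := by
        rw [hC, pow_zero, Ideal.one_eq_top, len, Module.length_eq_zero]
        simp
      rw [this]; exact ENNReal.zero_ne_top
    · refine len_ne_top ?_
      rw [Ideal.radical_pow _ (by omega)]
      exact (maximalIdeal.isMaximal _).isPrime.radical
  have key : ∀ a : ℕ, 1 ≤ a →
      mult I / (D * (len I + C / a)) ≤ LMdeep (PowerSeries R) N := by
    intro a ha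
    have : NeZero a := ⟨by omega⟩
    have ha0 : (a : ℝ≥0∞) ≠ 0 := Nat.cast_ne_zero.2 (by omega)
    have hat : (a : ℝ≥0∞) ≠ ∞ := ENNReal.natCast_ne_top _
    set J : Ideal (PowerSeries R) := I.map (σ R a) ⊓ maximalIdeal (PowerSeries R) ^ N with hJ
    have hJr : J.radical = maximalIdeal (PowerSeries R) := by
      rw [hJ, Ideal.radical_inf, radical_map hI]
      rcases Nat.eq_zero_or_pos N with rfl | hN
      · rw [pow_zero, Ideal.one_eq_top, Ideal.radical_top, inf_top_eq]
      · rw [Ideal.radical_pow _ (by omega), (maximalIdeal.isMaximal _).isPrime.radical, inf_idem]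
    have h1 : mult J / (D * len J) ≤ LMdeep (PowerSeries R) N := by
      unfold LMdeep
      exact le_iSup₂_of_le J ⟨hJr, inf_le_right⟩ le_rfl
    refine le_trans ?_ h1
    have h2 : (a : ℝ≥0∞) * mult I ≤ mult J := by
      rw [← mult_map hI]
      exact mult_mono inf_le_left
    have h3 : len J ≤ a * len I + C := by
      rw [← len_map hI]
      exact len_inf_le _ _
    calc mult I / (D * (len I + C / a)) = (a * mult I) / (a * (D * (len I + C / a))) :=
          (ENNReal.mul_div_mul_left _ _ ha0 hat).symm
      _ = (a * mult I) / (D * (a * len I + C)) := by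
          congr 1
          rw [mul_left_comm, mul_add, ENNReal.mul_div_cancel ha0 hat]
      _ ≤ mult J / (D * len J) := ENNReal.div_le_div h2 (mul_le_mul_right h3 _)
  have hlim : Tendsto (fun a : ℕ => mult I / (D * (len I + C / a))) atTop
      (𝓝 (mult I / (D * len I))) := by
    have h1 : Tendsto (fun a : ℕ => C / (a : ℝ≥0∞)) atTop (𝓝 0) := by
      have := ENNReal.Tendsto.const_mul (a := C) ENNReal.tendsto_inv_nat_nhds_zero (Or.inr hCt)
      rw [mul_zero] at this
      exact this
    have h2 : Tendsto (fun a : ℕ => len I + C / (a : ℝ≥0∞)) atTop (𝓝 (len I)) := by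
      have := (tendsto_const_nhds (x := len I)).add h1
      rw [add_zero] at this
      exact this
    have h3 := ENNReal.Tendsto.const_mul (a := D) h2 (Or.inl hl0)
    exact ENNReal.Tendsto.const_div h3 (Or.inl (ENNReal.mul_ne_top hDt hlt))
  refine le_of_tendsto hlim ?_
  filter_upwards [eventually_ge_atTop 1] with a ha using key a ha

/-- For every Noetherian local ring `R` and every `N`, the Lech-Mumford constant of `R[[T]]` is
equal to `L_N(R)`. In particular it is the limit of the sequence `L_N(R)`. -/
theorem result : (∀ N : ℕ, LMdeep (PowerSeries R) N = LM (PowerSeries R)) ∧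
    Tendsto (fun N : ℕ => LMdeep (PowerSeries R) N) atTop (𝓝 (LM (PowerSeries R))) := by
  have h : ∀ N : ℕ, LMdeep (PowerSeries R) N = LM (PowerSeries R) := by
    intro N
    apply le_antisymm
    · unfold LMdeep LM
      exact iSup₂_le fun I hI => le_iSup₂_of_le I hI.1 le_rfl
    · unfold LM
      exact iSup₂_le fun I hI => le_deep R N hI
  refine ⟨h, ?_⟩
  simp only [h]
  exact tendsto_const_nhds

end Pool.Agent.Results.MP_57f84f_al.DeepIdeals
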